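import Mathlib

/-! MP_92d133_al: finite J-height is not inherited by bi-ideals. -/

namespace Pool.Agent.Results.MP_92d133_al.BiIdeal

/-- The principal two-sided ideal of `b`, with multipliers in the semigroup with adjoined one. -/
def pIdeal {S : Type*} [Semigroup S] (b : S) : Set S :=
  {c | ∃ x y : WithOne S, (c : WithOne S) = x * b * y}

/-- The J-preorder. -/
def JLe {S : Type*} [Semigroup S] (a b : S) : Prop := pIdeal a ⊆ pIdeal b

/-- Strict J-order. -/
def JLt {S : Type*} [Semigroup S] (a b : S) : Prop := JLe a b ∧ ¬ JLe b a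

/-- The J-height: supremum of the sizes of finite strict chains of J-classes. -/
noncomputable def JHeight (S : Type*) [Semigroup S] : ℕ∞ :=
  ⨆ n ∈ {n : ℕ | ∃ a : Fin n → S, ∀ i j, i < j → JLt (a i) (a j)}, (n : ℕ∞)

theorem self_mem {S : Type*} [Semigroup S] (a : S) : a ∈ pIdeal a := ⟨1, 1, by simp⟩

theorem JLe_iff {S : Type*} [Semigroup S] (a b : S) :
    JLe a b ↔ ∃ x y : WithOne S, (a : WithOne S) = x * b * y := by
  constructor
  · intro h
    exact h (self_mem a)
  · rintro ⟨x, y, h⟩ c ⟨z, w, hc⟩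
    exact ⟨z * x, y * w, by rw [hc, h]; simp only [mul_assoc]⟩

/-- bicyclic product on pairs of naturals -/
def bm (x y : ℕ × ℕ) : ℕ × ℕ := (x.1 + (y.1 - x.2), (x.2 - y.1) + y.2)

theorem bm_assoc (x y z : ℕ × ℕ) : bm (bm x y) z = bm x (bm y z) := by
  unfold bm
  apply Prod.ext <;> simp only <;> omega

/-- Brandt semigroup over the bicyclic monoid, `none` is zero. -/
inductive Br : Type
  | ze : Br
  | el (i : Bool) (c : ℕ × ℕ) (j : Bool) : Br

open Br

def brMul : Br → Br → Br
  | ze, _ => ze
  | el _ _ _, ze => ze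
  | el i c j, el k d l => if j = k then el i (bm c d) l else ze

theorem brMul_assoc (a b c : Br) : brMul (brMul a b) c = brMul a (brMul b c) := by
  cases a with
  | ze => rfl
  | el i c1 j =>
    cases b with
    | ze => rfl
    | el k c2 l =>
      cases c with
      | ze =>
        by_cases h : j = k
        · simp [brMul, h]
        · simp [brMul, h]
      | el m c3 n =>
        by_cases h : j = k <;> by_cases h' : l = m
        · simp [brMul, h, h', bm_assoc]
        · simp [brMul, h, h']
        · simp [brMul, h, h']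
        · simp [brMul, h, h']

instance : Semigroup Br where
  mul := brMul
  mul_assoc := brMul_assoc

theorem el_mul (i j k l : Bool) (c d : ℕ × ℕ) :
    el i c j * el k d l = if j = k then el i (bm c d) l else ze := rfl

theorem ze_mul (a : Br) : ze * a = ze := rfl

theorem mul_ze (a : Br) : a * ze = ze := by
  cases a <;> rfl

theorem br_cases (a : Br) : a = ze ∨ ∃ i c j, a = el i c j := by
  cases a with
  | ze => exact Or.inl rfl
  | el i c j => exact Or.inr ⟨i, c, j, rfl⟩

theorem jle_of_ne (a b : Br) (hb : b ≠ ze) : JLe a b := by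
  rw [JLe_iff]
  obtain rfl | ⟨k, d, l, rfl⟩ := br_cases b
  · exact absurd rfl hb
  · obtain rfl | ⟨i, c, j, rfl⟩ := br_cases a
    · exact ⟨(ze : WithOne Br), 1, by rw [← WithOne.coe_mul, ze_mul, mul_one]⟩
    · refine ⟨(el i (bm c (0, d.1)) k : WithOne Br), (el l (d.2, 0) j : WithOne Br), ?_⟩
      rw [← WithOne.coe_mul, ← WithOne.coe_mul, el_mul, if_pos rfl, el_mul, if_pos rfl]
      have : bm (bm (bm c (0, d.1)) d) (d.2, 0) = c := by
        unfold bm
        apply Prod.ext <;> simp only <;> omega
      rw [this]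

theorem jle_ze (a : Br) : JLe ze a := by
  rw [JLe_iff]
  exact ⟨(ze : WithOne Br), 1, by rw [← WithOne.coe_mul, ze_mul, mul_one]⟩

theorem height_br : JHeight Br ≤ 2 := by
  unfold JHeight
  refine iSup₂_le fun n hn => ?_
  obtain ⟨a, ha⟩ := hn
  by_contra hlt
  have hn : 2 < n := by
    have := lt_of_not_ge hlt
    exact_mod_cast this
  have h01 := ha ⟨0, by omega⟩ ⟨1, by omega⟩ (by simp [Fin.lt_def])
  have h12 := ha ⟨1, by omega⟩ ⟨2, by omega⟩ (by simp [Fin.lt_def])
  apply h12.2
  apply jle_of_ne
  intro h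
  apply h01.2
  rw [h]
  exact jle_ze _

/-- the left ideal of elements with second index `true`, and zero -/
def B : Subsemigroup Br where
  carrier := {a | a = ze ∨ ∃ i c, a = el i c true}
  mul_mem' := by
    rintro a b (rfl | ⟨i, c, rfl⟩) (rfl | ⟨k, d, rfl⟩)
    · exact Or.inl (ze_mul _)
    · exact Or.inl (ze_mul _)
    · exact Or.inl (mul_ze _)
    · rw [el_mul]
      split_ifs
      · exact Or.inr ⟨_, _, rfl⟩
      · exact Or.inl rfl

theorem mem_B (a : Br) : a ∈ B ↔ (a = ze ∨ ∃ i c, a = el i c true) := Iff.rfl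

theorem left_B (s b : Br) (hb : b ∈ B) : s * b ∈ B := by
  rw [mem_B] at *
  obtain rfl | ⟨k, d, rfl⟩ := hb
  · exact Or.inl (mul_ze _)
  · obtain rfl | ⟨i, c, j, rfl⟩ := br_cases s
    · exact Or.inl (ze_mul _)
    · rw [el_mul]
      split_ifs
      · exact Or.inr ⟨_, _, rfl⟩
      · exact Or.inl rfl

def ch (m : ℕ) : B := ⟨el false (m, 0) true, Or.inr ⟨_, _, rfl⟩⟩

theorem ch_le (m k : ℕ) : JLe (ch (m + k)) (ch m) := by
  rw [JLe_iff]
  refine ⟨1, ((⟨el true (k, 0) true, Or.inr ⟨_, _, rfl⟩⟩ : B) : WithOne B), ?_⟩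
  rw [one_mul, ← WithOne.coe_mul]
  congr 1
  apply Subtype.ext
  show el false (m + k, 0) true = el false (m, 0) true * el true (k, 0) true
  rw [el_mul, if_pos rfl]
  congr 1
  unfold bm
  simp

theorem ch_nle (m k : ℕ) (hk : 0 < k) : ¬ JLe (ch m) (ch (m + k)) := by
  rw [JLe_iff]
  rintro ⟨x, y, h⟩
  have hz : ∀ b : B, b.1 = ze → ∀ y : WithOne B, (ch m : WithOne B) ≠ (b : WithOne B) * y := by
    intro b hb y h
    rcases eq_or_ne y 1 with rfl | hy
    · rw [mul_one] at h
      have := congrArg Subtype.val (WithOne.coe_injective h)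
      rw [hb] at this
      exact absurd this (by unfold ch; simp)
    · obtain ⟨y, rfl⟩ := WithOne.ne_one_iff_exists.1 hy
      rw [← WithOne.coe_mul] at h
      have := congrArg Subtype.val (WithOne.coe_injective h)
      have h2 : (b * y).1 = ze := by
        show b.1 * y.1 = ze
        rw [hb, ze_mul]
      rw [h2] at this
      exact absurd this (by unfold ch; simp)
  rcases eq_or_ne x 1 with rfl | hx
  · rw [one_mul] at h
    rcases eq_or_ne y 1 with rfl | hy
    · rw [mul_one] at h
      have h1 := congrArg Subtype.val (WithOne.coe_injective h)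
      have h2 : el false (m, 0) true = el false (m + k, 0) true := h1
      simp at h2
      omega
    · obtain ⟨y, rfl⟩ := WithOne.ne_one_iff_exists.1 hy
      rw [← WithOne.coe_mul] at h
      have h1 := congrArg Subtype.val (WithOne.coe_injective h)
      obtain ⟨y, rfl | ⟨i, c, rfl⟩⟩ := y
      · have h2 : el false (m, 0) true = el false (m + k, 0) true * ze := h1
        rw [mul_ze] at h2
        exact absurd h2 (by simp)
      · have h2 : el false (m, 0) true = el false (m + k, 0) true * el i c true := h1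
        rw [el_mul] at h2
        split_ifs at h2
        have h3 : el false (m, 0) true = el false (bm (m + k, 0) c) true := h2
        simp [bm] at h3
        omega
  · obtain ⟨x, rfl⟩ := WithOne.ne_one_iff_exists.1 hx
    rw [← WithOne.coe_mul] at h
    refine hz _ ?_ y h
    show x.1 * el false (m + k, 0) true = ze
    obtain ⟨x, rfl | ⟨i, c, rfl⟩⟩ := x
    · exact ze_mul _
    · show el i c true * el false (m + k, 0) true = ze
      rw [el_mul, if_neg (by decide)]

theorem height_B : JHeight B = ⊤ := by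
  rw [ENat.eq_top_iff_forall_ge]
  intro n
  refine le_iSup₂_of_le n ?_ le_rfl
  refine ⟨fun i => ch (n - i), fun i j hij => ?_⟩
  have h1 : (i : ℕ) < j := hij
  have h2 : (j : ℕ) < n := j.2
  have h3 : n - (i : ℕ) = (n - j) + (j - i) := by omega
  refine ⟨?_, ?_⟩
  · show JLe (ch (n - i)) (ch (n - j))
    rw [h3]
    exact ch_le _ _
  · show ¬ JLe (ch (n - j)) (ch (n - i))
    rw [h3]
    exact ch_nle _ _ (by omega)

/-- There is a semigroup of finite J-height with a bi-ideal of infinite J-height. -/
theorem result : ∃ (S : Type) (_ : Semigroup S), JHeight S < ⊤ ∧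
    ∃ B : Subsemigroup S, (B : Set S).Nonempty ∧
      (∀ b ∈ B, ∀ s : S, ∀ c ∈ B, b * s * c ∈ B) ∧ JHeight B = ⊤ := by
  refine ⟨Br, inferInstance, lt_of_le_of_lt height_br (by decide), B, ⟨ze, Or.inl rfl⟩, ?_,
    height_B⟩
  intro b _ s c hc
  exact left_B _ _ hc

end Pool.Agent.Results.MP_92d133_al.BiIdeal
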